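import Mathlib
import Pool.Agent.H12.Seven5

set_option autoImplicit false

namespace Pool.Agent.Results.MP_7230e4_co.MinimalNotTangential

open scoped Classical Matroid
open Pool.Agent.H12.Tang Pool.Agent.H12.Seven5

/-- A minimal k-block with a modular copoint need not be tangential. -/
theorem result :
    ¬ ∀ (F : Type) [Field F] [Fintype F] (k n : ℕ), 1 ≤ k →
      ∀ (α : Type) [Fintype α] (M : Matroid α) (v : α → Fin n → F),
        (∀ I ⊆ M.E, (M.Indep I ↔ LinearIndepOn F v I)) → Simple M → M.eRk M.E = n →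
        (∃ X : Set α, M.IsFlat X ∧ M.eRk X + 1 = n ∧
          ∀ L : Set α, M.IsFlat L → M.eRk L = 2 → (L ∩ X).Nonempty) →
        (∀ j ≤ k, chi M ((Fintype.card F : ℤ) ^ j) = 0) →
        (∀ x ∈ M.E, ∃ j ≤ k, chi (M ＼ {x}) ((Fintype.card F : ℤ) ^ j) ≠ 0) →
        ∀ Y : Set α, M.IsFlat Y → Y.Nonempty → M.eRk Y + k ≤ n →
          ∃ U : Submodule F (Fin n → F), Module.finrank F U + k = n ∧
            ∀ e ∈ M.E, (v e ∈ U ↔ e ∈ Y) := by
  intro h
  have := fact7
  obtain ⟨U, h1, h2⟩ := h (ZMod 7) 1 5 le_rfl (Fin 26) M v hv simple rkE ⟨X, flatX, rkX1, meets⟩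
    block (fun x _ => ⟨1, le_rfl, minimal x⟩) Y (M.isFlat_closure _) ⟨_, memY1⟩ rkY
  exact no_tangent U h1 h2

end Pool.Agent.Results.MP_7230e4_co.MinimalNotTangential
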